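import Pool.Agent.Helper15.FC.St2

set_option autoImplicit false

/-!
# FC MODULE LOG: the value of an L-polynomial on the critical circle is bounded by a short sum
-/

namespace Pool.Agent.Helper86.FC

open Pool.Agent.Helper15.FC Polynomial

theorem hLOG (hFAC : StFAC) : StLOG := by
  intro Cc K bb hK hMaj F _ _ Χ D hCM hA hRH u hu
  obtain ⟨hC0, hbb, hmaj⟩ := hMaj
  obtain ⟨n, α, hn, hLp, hPsi⟩ := hFAC F Χ D hCM hA
  have hα : ∀ i, ‖α i * u‖ ≤ 1 := by
    intro i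
    by_cases h0 : α i = 0
    · simp [h0]
    · have hz : (Lp Χ D).eval (α i)⁻¹ = 0 := by
        rw [hLp, Polynomial.eval_prod]
        refine Finset.prod_eq_zero (Finset.mem_univ i) ?_
        simp [h0]
      have h1 := hRH _ hz
      rw [norm_inv] at h1
      have hpos : 0 < ‖α i‖ := norm_pos_iff.2 h0
      have h2 : ‖α i‖ ^ 2 ≤ qr F := by
        have h3 : qr F * ‖α i‖⁻¹ ^ 2 * ‖α i‖ ^ 2 = qr F := by
          field_simp
        nlinarith [mul_le_mul_of_nonneg_right h1 (sq_nonneg ‖α i‖)]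
      have h4 : (‖α i‖ * ‖u‖) ^ 2 ≤ 1 := by
        rw [mul_pow, ← hu]
        exact mul_le_mul_of_nonneg_right h2 (sq_nonneg _)
      rw [norm_mul]
      nlinarith [norm_nonneg (α i), norm_nonneg u, mul_nonneg (norm_nonneg (α i)) (norm_nonneg u)]
  have hval : ‖(Lp Χ D).eval u‖ = ∏ i, ‖1 - α i * u‖ := by
    rw [hLp, Polynomial.eval_prod, norm_prod]
    refine Finset.prod_congr rfl fun i _ => ?_
    simp
  have hprod : ∏ i, ‖1 - α i * u‖ ≤ ∏ i : Fin n, Real.exp (Cc / K -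
      (∑ j ∈ Finset.Icc 1 (2 * K), ((bb j / j : ℝ) : ℂ) * (α i * u) ^ j).re) :=
    Finset.prod_le_prod (fun i _ => norm_nonneg _) (fun i _ => hmaj _ (hα i))
  rw [← Real.exp_sum] at hprod
  rw [hval]
  refine hprod.trans (Real.exp_le_exp.2 ?_)
  rw [Finset.sum_sub_distrib, Finset.sum_const, Finset.card_univ, Fintype.card_fin, nsmul_eq_mul]
  have hsum : ∑ i : Fin n, (∑ j ∈ Finset.Icc 1 (2 * K), ((bb j / j : ℝ) : ℂ) * (α i * u) ^ j).re =
      -(∑ j ∈ Finset.Icc 1 (2 * K), ((bb j / j : ℝ) : ℂ) * Psi Χ j * u ^ j).re := by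
    rw [← Complex.re_sum, ← Complex.neg_re, Finset.sum_comm, ← Finset.sum_neg_distrib]
    congr 1
    refine Finset.sum_congr rfl fun j hj => ?_
    rw [hPsi j (Finset.mem_Icc.1 hj).1, ← Finset.mul_sum]
    have : ∑ i : Fin n, (α i * u) ^ j = (∑ i : Fin n, α i ^ j) * u ^ j := by
      rw [Finset.sum_mul]
      exact Finset.sum_congr rfl fun i _ => mul_pow _ _ _
    rw [this]
    ring
  rw [hsum, sub_neg_eq_add]
  have hnD : (n : ℝ) ≤ (D : ℝ) := by
    exact_mod_cast (Nat.le_succ n).trans hn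
  have hKp : (0 : ℝ) ≤ Cc / K := div_nonneg hC0 (Nat.cast_nonneg K)
  have h5 : (n : ℝ) * (Cc / K) ≤ Cc * D / K := by
    calc (n : ℝ) * (Cc / K) ≤ D * (Cc / K) := mul_le_mul_of_nonneg_right hnD hKp
      _ = Cc * D / K := by ring
  linarith

end Pool.Agent.Helper86.FC
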